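import Pool.Agent.MP_52008a_ag.Petri.Explicit
import Pool.Agent.MP_52008a_ag.RR

/-!
The seven places of the elliptic curve and its invariant differential.
-/

open Polynomial WithZero
open scoped IntermediateField

namespace Pool.Agent.MP_52008a_ag

section gen

variable {K F : Type} [Field K] [Field F] [Algebra K F] [IsAlgClosed K] [CharZero K] [IsFF K F]

theorem pole_sum_le {z : F} (hz : Transcendental K z) (t : Finset (Place K F))
    (ht : ∀ P ∈ t, P.ord z < 0) : - (Module.finrank K⟮z⟯ F : ℤ) ≤ ∑ P ∈ t, P.ord z := by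
  classical
  have hfin : ({P : Place K F | 1 < P.v z} ∩ Function.support fun P => P.ord z).Finite :=
    (finite_ord z).subset Set.inter_subset_right
  rw [← finsum_pole hz, finsum_mem_eq_sum _ hfin]
  have hsub : t ⊆ hfin.toFinset := fun P hP => by
    simp only [Set.Finite.mem_toFinset, Set.mem_inter_iff, Set.mem_setOf_eq, Function.mem_support]
    exact ⟨(FF.one_lt_v_iff P z).2 (ht P hP), (ht P hP).ne⟩
  rw [← Finset.sum_sdiff hsub]
  have : ∑ P ∈ hfin.toFinset \ t, P.ord z ≤ 0 := Finset.sum_nonpos fun P hP => by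
    have := (Finset.mem_sdiff.1 hP).1
    simp only [Set.Finite.mem_toFinset, Set.mem_inter_iff, Set.mem_setOf_eq] at this
    exact ((FF.one_lt_v_iff P z).1 this.1).le
  linarith

omit [IsAlgClosed K] [CharZero K] [IsFF K F] in
theorem Place.dvd_ord_adjoin (P : Place K F) {f : F} {α : K}
    (h1 : P.Ge 1 (f - algebraMap K F α)) {A : F} (hA : A ∈ K⟮f⟯) :
    P.ord (f - algebraMap K F α) ∣ P.ord A := by
  have key : ∀ p : K[X], P.ord (f - algebraMap K F α) ∣ P.ord (aeval f p) := by
    intro p
    rcases eq_or_ne p 0 with rfl | hp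
    · simp
    obtain ⟨q, hq, hq'⟩ := exists_eq_pow_rootMultiplicity_mul_and_not_dvd p hp α
    have h2 := Place.unit_of_sub (fun h0 => hq' (dvd_iff_isRoot.2 h0)) (P.aeval_sub h1 q)
    rw [hq, map_mul, map_pow, map_sub, aeval_X, aeval_C]
    by_cases h3 : (f - algebraMap K F α) ^ rootMultiplicity α p = 0
    · simp [h3]
    rw [P.ord_mul h3 h2.1, h2.2, P.ord_pow, add_zero]
    exact Dvd.intro_left _ rfl
  obtain ⟨p, q, rfl⟩ := (IntermediateField.mem_adjoin_simple_iff K A).1 hA
  by_cases hp : aeval f p = 0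
  · simp [hp]
  by_cases hq : aeval f q = 0
  · simp [hq]
  rw [P.ord_div hp hq]
  exact dvd_sub (key p) (key q)

theorem Somos.unit_S {c : K} {x : F} {u : ℤ → F} (h : Somos (algebraMap K F c) x u)
    (hu : ∀ n, u n ≠ 0) (P : Place K F) (m : ℤ) (h0 : P.ord (sf u m) = 0)
    (h1 : P.ord (sf u (m + 1)) = 0) :
    (sS u m ≠ 0 ∧ P.ord (sS u m) = 0) ∨ (sS u (m + 1) ≠ 0 ∧ P.ord (sS u (m + 1)) = 0) := by
  obtain ⟨α, hα⟩ := P.residue (P.ge_of_le h0.ge)
  obtain ⟨β, hβ⟩ := P.residue (P.ge_of_le h1.ge)
  have hc : c ^ 3 + c - 1 = 0 := (algebraMap K F).injective (by simpa using h.hc)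
  set f := sf u m
  set g := sf u (m + 1)
  have hf : P.Ge 0 f := P.ge_of_le h0.ge
  have hg : P.Ge 0 g := P.ge_of_le h1.ge
  have hC := fun a : K => P.ge_const a
  have h2 : P.Ge 0 (2 : F) := by simpa using P.ge_natCast 2
  by_contra hcon
  rw [not_or] at hcon
  refine nonsing hc (f := α) (g := β) ?_ ?_ ?_
  · refine Place.const_eq_zero (P := P) ?_
    have e : algebraMap K F (Pq c α β) =
        -((f + algebraMap K F α) * g ^ 2 - algebraMap K F c ^ 2 * g + 1) * (f - algebraMap K F α)
        - (algebraMap K F α ^ 2 * (g + algebraMap K F β) - algebraMap K F c ^ 2 * algebraMap K F α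
          + 1) * (g - algebraMap K F β) := by
      have := h.pq hu m
      simp only [Pq, map_sub, map_add, map_mul, map_pow] at this ⊢
      linear_combination this
    rw [e]
    exact (((((hf.add (hC _)).mul0 (hg.pow0 _)).sub (((hC _).pow0 _).mul0 hg)).add
      P.ge_one).neg.mul0 hα).sub ((((((hC _).pow0 _).mul0 (hg.add (hC _))).sub
      (((hC _).pow0 _).mul0 (hC _))).add P.ge_one).mul0 hβ)
  · by_contra hne
    refine hcon.1 (Place.unit_of_sub hne ?_)
    have e : sS u m - algebraMap K F (2 * α ^ 2 * β + 1 - c ^ 2 * α) =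
        (2 * (f + algebraMap K F α) * g - algebraMap K F c ^ 2) * (f - algebraMap K F α) +
          2 * algebraMap K F α ^ 2 * (g - algebraMap K F β) := by
      rw [h.sS_eq hu]
      simp only [map_sub, map_add, map_mul, map_pow, map_one, map_ofNat]
      ring
    rw [e]
    exact ((((h2.mul0 (hf.add (hC _))).mul0 hg).sub ((hC _).pow0 _)).mul0 hα).add
      ((h2.mul0 ((hC _).pow0 _)).mul0 hβ)
  · by_contra hne
    refine hcon.2 (Place.unit_of_sub (neg_ne_zero.2 hne) ?_)
    have e : sS u (m + 1) - algebraMap K F (-(2 * β ^ 2 * α + 1 - c ^ 2 * β)) =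
        -((2 * (g + algebraMap K F β) * f - algebraMap K F c ^ 2) * (g - algebraMap K F β) +
          2 * algebraMap K F β ^ 2 * (f - algebraMap K F α)) := by
      rw [h.sS_eq' hu]
      simp only [map_sub, map_add, map_mul, map_pow, map_one, map_ofNat, map_neg]
      ring
    rw [e]
    exact (((((h2.mul0 (hg.add (hC _))).mul0 hf).sub ((hC _).pow0 _)).mul0 hβ).add
      ((h2.mul0 ((hC _).pow0 _)).mul0 hα)).neg

omit [IsAlgClosed K] [CharZero K] [IsFF K F] in
theorem Somos.dd_rel {c : K} {x : F} {u : ℤ → F} (h : Somos (algebraMap K F c) x u)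
    (hu : ∀ n, u n ≠ 0) (n : ℤ) :
    sS u n • dd K (sf u (n + 1)) = sS u (n + 1) • dd K (sf u n) := by
  have e := congrArg (KaehlerDifferential.D K F) (h.pq hu n)
  rw [h.sS_eq hu, h.sS_eq' hu]
  simp only [Pq, map_sub, map_add, Derivation.leibniz, Derivation.leibniz_pow,
    Derivation.map_algebraMap, map_zero, smul_zero] at e
  rw [← sub_eq_zero, ← e]
  simp only [dd]
  module

end gen

section J

variable {K E : Type} [Field K] [Field E] [Algebra K E] [CharZero K] {c : K} {φ : ℤ → E}

theorem IsJ.sf_trans (h : IsJ K E c φ) (n : ℤ) : Transcendental K (sf φ n) := by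
  intro ha
  have := h.finite n
  have := IntermediateField.adjoin.finiteDimensional ha.isIntegral
  have : FiniteDimensional K E := Module.Finite.trans K⟮sf φ n⟯ E
  exact h.tr (Algebra.IsAlgebraic.isAlgebraic _)

theorem IsJ.sS_ne (h : IsJ K E c φ) (n : ℤ) : sS φ n ≠ 0 := by
  intro h0
  have e := h.som.sS_sq h.ne n
  rw [h0] at e
  refine h.sf_trans n ⟨(1 - C c ^ 2 * X) ^ 2 - 4 * X ^ 2 * (X - C c), fun h1 => ?_, ?_⟩
  · simpa using congrArg (eval 0) h1
  · simp only [map_sub, map_mul, map_pow, aeval_X, aeval_C, map_one, map_ofNat]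
    rw [Dl] at e
    linear_combination -e

variable [IsAlgClosed K]

theorem IsJ.table (h : IsJ K E c φ) : ∃ r : ZMod 7 → Place K E, IsTable φ r := by
  classical
  have := h.isFF
  have hpole : ∀ n : ℤ, ∃ P : Place K E, P.ord (sf φ n) < 0 := fun n => by
    obtain ⟨P, hP⟩ := exists_place_pos (K := K) (t := (sf φ n)⁻¹)
      (fun ha => h.sf_trans n (IsAlgebraic.inv_iff.1 ha))
    exact ⟨P, by simpa using hP⟩
  have hshape : ∀ (n : ℤ) (P : Place K E), P.ord (sf φ n) < 0 → ∃ ν l e : ℤ, 0 < e ∧
      P.ord (sf φ n) = -2 * e ∧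
      ∀ i : ℤ, P.ord (φ i) = ν + i * l + (if (7 : ℤ) ∣ i - n then e else 0) := by
    intro n P hP
    obtain ⟨b, ν, l, e, he, -, hb⟩ := h.som.place h.ne P
    have h1 := ord_sf P h.ne hb n
    have h2 : (7 : ℤ) ∣ n - b := by
      by_contra h2
      rw [if_neg h2] at h1
      split_ifs at h1 <;> omega
    rw [if_pos h2, if_neg (by omega), if_neg (by omega)] at h1
    refine ⟨ν, l, e, by omega, by omega, fun i => ?_⟩
    rw [hb]
    congr 1
    exact if_congr (by omega) rfl rfl
  have hle : ∀ (n : ℤ) (t : Finset (Place K E)), (∀ P ∈ t, P.ord (sf φ n) < 0) →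
      -2 ≤ ∑ P ∈ t, P.ord (sf φ n) := fun n t ht => by
    have h1 := pole_sum_le (h.sf_trans n) t ht
    have h2 := h.finrank_le n
    omega
  have huniq : ∀ (n : ℤ) (P Q : Place K E), P.ord (sf φ n) < 0 → Q.ord (sf φ n) < 0 → P = Q := by
    intro n P Q hP hQ
    by_contra hne
    have h1 := hle n {P, Q} (by simp [hP, hQ])
    rw [Finset.sum_pair hne] at h1
    obtain ⟨-, -, e, he, h2, -⟩ := hshape n P hP
    obtain ⟨-, -, e', he', h3, -⟩ := hshape n Q hQ
    omega
  choose r hr using hpole
  refine ⟨fun a => r a.val, fun a j => ?_, fun P hP j => ?_⟩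
  · obtain ⟨ν, l, e, he, h2, h3⟩ := hshape _ _ (hr a.val)
    have h1 := hle a.val {r a.val} (by simpa using hr a.val)
    rw [Finset.sum_singleton] at h1
    have he1 : e = 1 := by omega
    subst he1
    have hiff : ∀ i : ℤ, (7 : ℤ) ∣ i - a.val ↔ (i : ZMod 7) = a := fun i => by
      have := ZMod.intCast_eq_intCast_iff_dvd_sub (a.val : ℤ) i 7
      simp only [Int.cast_natCast, ZMod.natCast_zmod_val, Nat.cast_ofNat] at this
      rw [← this, eq_comm]
    simp only [hiff] at h3
    have a0 := h3 0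
    have a1 := h3 1
    rw [h.h0, Place.ord_one] at a0
    rw [h.h1, Place.ord_one] at a1
    rw [h3]
    simp only [Int.cast_zero, Int.cast_one, eq_comm (b := a)] at a0 a1 ⊢
    have hν : ν = -(if a = 0 then 1 else 0) := by linarith
    have hl : l = (if a = 0 then 1 else 0) - (if a = 1 then 1 else 0) := by linarith
    rw [hν, hl]
    split_ifs <;> ring
  · obtain ⟨b, ν, l, e, he, -, hb⟩ := h.som.place h.ne P
    have he0 : e = 0 := by
      by_contra he0
      have h1 := ord_sf P h.ne hb ((b : ZMod 7).val)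
      have h2 : (7 : ℤ) ∣ ((b : ZMod 7).val : ℤ) - b := by
        have := (ZMod.intCast_eq_intCast_iff_dvd_sub b ((b : ZMod 7).val) 7).1 (by simp)
        simpa using this
      rw [if_pos h2, if_neg (by omega), if_neg (by omega)] at h1
      exact hP (b : ZMod 7) (huniq _ _ _ (by omega) (hr _))
    have a0 := hb 0
    have a1 := hb 1
    rw [h.h0, Place.ord_one] at a0
    rw [h.h1, Place.ord_one] at a1
    simp only [he0, ite_self] at a0 a1 hb
    rw [hb]
    have hν : ν = 0 := by linarith
    have hl : l = 0 := by linarith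
    rw [hν, hl]
    ring

theorem IsJ.ord_eq_one (h : IsJ K E c φ) (P : Place K E) (m : ℤ) {α : K}
    (h1 : P.Ge 1 (sf φ m - algebraMap K E α)) (hS : P.ord (sS φ m) = 0) :
    P.ord (sf φ m - algebraMap K E α) = 1 := by
  have : CharZero E := charZero_of_injective_algebraMap (algebraMap K E).injective
  have hne : sf φ m - algebraMap K E α ≠ 0 :=
    sub_ne_zero.2 (transcendental_iff_ne.1 (h.sf_trans m) α)
  have hpos := h1.le hne
  have hS0 := h.sS_ne m
  have o2 : P.ord (2 : E) = 0 := by simpa only [Nat.cast_ofNat] using P.ord_natCast 2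
  have key : ∀ g : E, P.ord (sf φ m - algebraMap K E α) ∣ P.ord g := by
    intro g
    obtain ⟨A, hA, B, hB, rfl⟩ := h.rep m g
    have dA := P.dvd_ord_adjoin h1 hA
    have dB := P.dvd_ord_adjoin h1 hB
    rcases eq_or_ne B 0 with rfl | hB0
    · simpa using dA
    have hBS : P.ord (B * sS φ m) = P.ord B := by rw [P.ord_mul hB0 hS0, hS, add_zero]
    have hBS0 := mul_ne_zero hB0 hS0
    by_cases hg : A + B * sS φ m = 0
    · simp [hg]
    by_cases hc1 : P.Ge (P.ord (A + B * sS φ m) + 1) (A - B * sS φ m)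
    · have h2 := (Place.add_ne_and_ord hg hc1.neg).2
      rw [show A + B * sS φ m + -(A - B * sS φ m) = 2 * (B * sS φ m) by ring,
        P.ord_mul two_ne_zero hBS0, hBS] at h2
      rw [← h2]
      simpa [o2] using dB
    obtain ⟨hg', hlt⟩ := Place.not_ge.1 hc1
    have hN : (A + B * sS φ m) * (A - B * sS φ m) ∈ K⟮sf φ m⟯ := by
      have hf : sf φ m ∈ K⟮sf φ m⟯ := IntermediateField.mem_adjoin_simple_self K _
      have hc : algebraMap K E c ∈ K⟮sf φ m⟯ := IntermediateField.algebraMap_mem _ c
      rw [show (A + B * sS φ m) * (A - B * sS φ m) = A ^ 2 - B ^ 2 * sS φ m ^ 2 by ring,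
        h.som.sS_sq h.ne, Dl]
      exact sub_mem (pow_mem hA _) (mul_mem (pow_mem hB _) (sub_mem (pow_mem (sub_mem (one_mem _)
        (mul_mem (pow_mem hc _) hf)) _)
        (mul_mem (mul_mem (ofNat_mem _ 4) (pow_mem hf _)) (sub_mem hf hc))))
    have dN := P.dvd_ord_adjoin h1 hN
    rw [P.ord_mul hg hg'] at dN
    by_cases hc2 : P.Ge (P.ord (A - B * sS φ m) + 1) (A + B * sS φ m)
    · have h2 := (Place.add_ne_and_ord hg' hc2.neg).2
      rw [show A - B * sS φ m + -(A + B * sS φ m) = -(2 * (B * sS φ m)) by ring, P.ord_neg,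
        P.ord_mul two_ne_zero hBS0, hBS] at h2
      rw [← h2] at dN
      exact (dvd_add_left (by simpa [o2] using dB)).1 dN
    have hlt' := (Place.not_ge.1 hc2).2
    have heq : P.ord (A - B * sS φ m) = P.ord (A + B * sS φ m) := by omega
    have g1 : P.Ge (P.ord (A + B * sS φ m)) (A - B * sS φ m) := heq ▸ P.ge_ord _
    have g2 := P.ge_ord (A + B * sS φ m)
    have b1 : P.ord (A + B * sS φ m) ≤ P.ord B := by
      have := (g2.sub g1).le (by
        rw [show A + B * sS φ m - (A - B * sS φ m) = 2 * (B * sS φ m) by ring]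
        exact mul_ne_zero two_ne_zero hBS0)
      rw [show A + B * sS φ m - (A - B * sS φ m) = 2 * (B * sS φ m) by ring,
        P.ord_mul two_ne_zero hBS0, hBS] at this
      simpa [o2] using this
    rcases b1.lt_or_eq with b2 | b2
    · rcases eq_or_ne A 0 with rfl | hA0
      · rw [zero_add, hBS] at b2
        exact absurd b2 (lt_irrefl _)
      have h2 := (Place.add_ne_and_ord hg (g := -(B * sS φ m))
        (P.ge_of_le (by rw [P.ord_neg, hBS]; omega))).2
      rw [add_neg_cancel_right] at h2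
      rwa [← h2]
    · rwa [b2]
  have := key P.unif
  rw [P.ord_unif] at this
  exact Int.eq_one_of_dvd_one (by omega) this

section F

variable {F : Type} [Field F] [Algebra E F] [Algebra K F] [IsScalarTower K E F]

omit [IsAlgClosed K] in
theorem IsJ.dd_sf (h : IsJ K E c φ) (n : ℤ) :
    dd K (algebraMap E F (sf φ n)) = algebraMap E F (sS φ n) • sw K F φ := by
  have hs := h.som.map (algebraMap E F)
  rw [← IsScalarTower.algebraMap_apply] at hs
  have hu : ∀ n, algebraMap E F (φ n) ≠ 0 := fun n => by simpa using h.ne n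
  have e1 : ∀ n, sf (fun n => algebraMap E F (φ n)) n = algebraMap E F (sf φ n) := fun n => by
    simp [sf]
  have e2 : ∀ n, sS (fun n => algebraMap E F (φ n)) n = algebraMap E F (sS φ n) := fun n => by
    simp [sS, e1]
  have hS : ∀ n, algebraMap E F (sS φ n) ≠ 0 := fun n => by simpa using h.sS_ne n
  have rel := fun n => hs.dd_rel hu n
  simp only [e1, e2] at rel
  induction n using Int.inductionOn' (b := 1) with
  | zero => rw [sw, smul_inv_smul₀ (hS 1), h.sf1]
  | succ k _ ih =>
    refine smul_right_injective _ (hS k) ?_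
    dsimp only
    rw [rel k, ih, smul_comm]
  | pred k _ ih =>
    refine smul_right_injective _ (hS k) ?_
    dsimp only
    have := rel (k - 1)
    rw [sub_add_cancel] at this
    rw [← this, ih, smul_comm]

omit [IsAlgClosed K] in
theorem IsJ.sw_neF (h : IsJ K E c φ) [IsFF K F] : sw K F φ ≠ 0 := by
  have h1 : Transcendental K (algebraMap E F (φ 2)) :=
    (transcendental_algebraMap_iff (algebraMap E F).injective).2 h.tr
  exact smul_ne_zero (by simpa using h.sS_ne 1) (dd_ne_zero h1)

omit [IsAlgClosed K] in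
theorem IsCurve.finite {a : ℕ → K} {Y : F} (h : IsCurve c a φ Y) : FiniteDimensional E F := by
  have hY : IsAlgebraic E Y := by
    refine ⟨Phi a φ, fun h0 => ?_, ?_⟩
    · have := congrArg (fun p => p.coeff 0) h0
      simp [Phi, finset_sum_coeff, coeff_monomial, h.ne, h.J.ne] at this
    · rw [← h.root, Phi, map_sum]
      refine Finset.sum_congr rfl fun j _ => ?_
      rw [aeval_monomial, map_mul, ← IsScalarTower.algebraMap_apply, su, Algebra.smul_def,
        zpow_natCast, mul_assoc]
  have := IntermediateField.adjoin.finiteDimensional hY.isIntegral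
  rw [h.gen] at this
  exact IntermediateField.topEquiv.toLinearEquiv.finiteDimensional

omit [IsAlgClosed K] in
theorem IsCurve.isFF {a : ℕ → K} {Y : F} (h : IsCurve c a φ Y) : IsFF K F := by
  have := h.J.isFF
  have := h.finite
  exact IsFF.of_finite E

end F

omit [IsAlgClosed K] in
theorem IsJ.sw_ne (h : IsJ K E c φ) : sw K E φ ≠ 0 := by
  have := h.isFF
  exact h.sw_neF

theorem IsJ.form0 (h : IsJ K E c φ) (P : Place K E) (n : ℤ) (g : E) :
    g • sw K E φ ∈ P.forms n ↔ P.Ge n g := by
  have := h.isFF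
  obtain ⟨b, ν, l, e, he, -, hb⟩ := h.som.place h.ne P
  have key : ∀ m : ℤ, P.ord (sf φ m) = 0 → P.ord (sS φ m) = 0 → P.fo h.sw_ne = 0 := by
    intro m h0 hS
    obtain ⟨α, hα⟩ := P.residue (P.ge_of_le h0.ge)
    have h1 := h.ord_eq_one P m hα hS
    have h2 : dd K (sf φ m - algebraMap K E α) = sS φ m • sw K E φ := by
      have := h.dd_sf (F := E) m
      simp only [Algebra.algebraMap_self, RingHom.id_apply] at this
      rw [← this]
      simp [dd]
    have h3 := P.ord_der h.sw_ne (g := sf φ m - algebraMap K E α) (by omega)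
    rw [der_eq h.sw_ne h2] at h3
    omega
  have o2 := ord_sf P h.ne hb (b + 2)
  have o3 := ord_sf P h.ne hb (b + 2 + 1)
  rw [if_neg (by omega), if_neg (by omega), if_neg (by omega)] at o2 o3
  have h0 : P.fo h.sw_ne = 0 := by
    rcases h.som.unit_S h.ne P (b + 2) (by omega) (by omega) with h1 | h1
    · exact key _ (by omega) h1.2
    · exact key _ (by omega) h1.2
  rw [P.forms_iff h.sw_ne, h0, sub_zero]

end J

end Pool.Agent.MP_52008a_ag
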